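import Mathlib
import Pool.Agent.Results.MP_555c3f_al.UniqueSolution

set_option autoImplicit false

/-!
# Small integer solutions of systems `z_i = 1`, `z_i + z_j = z_k`
-/

namespace Pool.Agent.Results.MP_80f852_al.IntegerSolutions

open Matrix Finset
open Pool.Agent.Results.MP_555c3f_al.UniqueSolution (Cls Cls2 det_cls2 rowAdd rowSub cls2_rowAdd
  cls2_rowSub)

/-! ### Integer solutions of linear systems from a largest minor -/

/-- Cramer's rule with a column of the matrix is a minor. -/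
lemma cramer_col {K n : ℕ} (N : Matrix (Fin K) (Fin n) ℤ) (g : Fin K → Fin n) (i : Fin K)
    (c : Fin n) :
    Matrix.cramer (N.submatrix id g) (fun r => N r c) i =
      (N.submatrix id (Function.update g i c)).det := by
  rw [Matrix.cramer_apply]
  congr 1
  ext r j
  by_cases h : j = i
  · subst h
    simp
  · simp [h]

/-- There is a nonzero maximal minor. -/
lemma exists_minor {K n : ℕ} (N : Matrix (Fin K) (Fin n) ℤ)
    (hN : LinearIndependent ℚ (fun r : Fin K => fun j => (N r j : ℚ))) :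
    ∃ g : Fin K → Fin n, (N.submatrix id g).det ≠ 0 := by
  classical
  set A : Matrix (Fin K) (Fin n) ℚ := N.map (Int.castRingHom ℚ) with hA
  have hArow : LinearIndependent ℚ A.row := hN
  have hrank : A.rank = K := by
    rw [hArow.rank_matrix, Fintype.card_fin]
  have hspan : Submodule.span ℚ (Set.range A.col) = ⊤ := by
    apply Submodule.eq_top_of_finrank_eq
    rw [← Matrix.rank_eq_finrank_span_cols, hrank]
    simp
  obtain ⟨κ, a, ha, hs, hli⟩ := exists_linearIndependent' ℚ A.col
  have : Finite κ := hli.finite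
  have : Fintype κ := Fintype.ofFinite κ
  have hcard : Fintype.card κ = Fintype.card (Fin K) := by
    have h1 : ⊤ ≤ Submodule.span ℚ (Set.range (A.col ∘ a)) := by rw [hs, hspan]
    rw [← Module.finrank_eq_card_basis (Module.Basis.mk hli h1), Module.finrank_pi]
  let σ : Fin K ≃ κ := (Fintype.equivOfCardEq hcard).symm
  refine ⟨a ∘ σ, ?_⟩
  have hunit : IsUnit (A.submatrix id (a ∘ σ)) := by
    rw [← Matrix.linearIndependent_cols_iff_isUnit]
    have : (A.submatrix id (a ∘ σ)).col = (A.col ∘ a) ∘ σ := rfl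
    rw [this]
    exact hli.comp σ σ.injective
  have hdet : (A.submatrix id (a ∘ σ)).det = (((N.submatrix id (a ∘ σ)).det : ℤ) : ℚ) := by
    have : A.submatrix id (a ∘ σ) = (Int.castRingHom ℚ).mapMatrix (N.submatrix id (a ∘ σ)) := rfl
    rw [this, ← RingHom.map_det]
    simp
  intro h
  rw [Matrix.isUnit_iff_isUnit_det, hdet, h] at hunit
  simp at hunit

/-- An integer solution can be replaced by a small one. -/
lemma core {K n : ℕ} (N : Matrix (Fin K) (Fin n) ℤ)
    (hN : LinearIndependent ℚ (fun r : Fin K => fun j => (N r j : ℚ))) (B : ℤ)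
    (hB : ∀ g : Fin K → Fin n, Function.Injective g → |(N.submatrix id g).det| ≤ B)
    (x : Fin n → ℤ)
    (hB' : ∀ g : Fin K → Fin n, Function.Injective g →
      ∀ i, |Matrix.cramer (N.submatrix id g) (N *ᵥ x) i| ≤ B) :
    ∃ y : Fin n → ℤ, N *ᵥ y = N *ᵥ x ∧ ∀ i, |y i| ≤ B * 2 ^ (n - K) := by
  classical
  obtain ⟨g₀, hg₀⟩ := exists_minor N hN
  obtain ⟨g, -, hg⟩ := Finset.exists_max_image Finset.univ
    (fun g : Fin K → Fin n => |(N.submatrix id g).det|) ⟨g₀, Finset.mem_univ _⟩
  set D := (N.submatrix id g).det with hD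
  have hD0 : D ≠ 0 := by
    have h1 := hg g₀ (Finset.mem_univ _)
    intro h
    rw [h, abs_zero] at h1
    exact hg₀ (abs_eq_zero.1 (le_antisymm h1 (abs_nonneg _)))
  have hDpos : 0 < |D| := abs_pos.2 hD0
  have hinj : Function.Injective g := by
    intro i j hij
    by_contra hne
    apply hD0
    rw [hD]
    apply Matrix.det_zero_of_column_eq hne
    intro r
    simp [hij]
  -- the other columns
  set R : Finset (Fin n) := Finset.univ.filter (fun c => c ∉ Finset.univ.image g) with hR
  have hRcard : R.card = n - K := by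
    have h1 : R = (Finset.univ.image g)ᶜ := by
      ext c
      simp [hR]
    rw [h1, Finset.card_compl, Fintype.card_fin, Finset.card_image_of_injective _ hinj,
      Finset.card_univ, Fintype.card_fin]
  have hmemR : ∀ c, c ∈ R ↔ ∀ i, g i ≠ c := by
    intro c
    simp [hR]
  set w : Fin n → Fin K → ℤ := fun c => Matrix.cramer (N.submatrix id g) (fun r => N r c) with hw
  have hwb : ∀ c i, |w c i| ≤ |D| := by
    intro c i
    rw [hw]
    simp only
    rw [cramer_col]
    exact hg _ (Finset.mem_univ _)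
  have hwN : ∀ c r, ∑ i, N r (g i) * w c i = D * N r c := by
    intro c r
    have h1 := congrFun (Matrix.mulVec_cramer (N.submatrix id g) (fun r => N r c)) r
    simp only [Matrix.mulVec, dotProduct, Matrix.submatrix_apply, id, Pi.smul_apply,
      smul_eq_mul] at h1
    exact h1
  -- sums over all columns
  have hsplit : ∀ f : Fin n → ℤ, ∑ c, f c = ∑ i, f (g i) + ∑ c ∈ R, f c := by
    intro f
    rw [← Finset.sum_image (s := Finset.univ) (g := g) (f := f) (fun i _ j _ h => hinj h)]
    rw [hR, ← Finset.sum_filter_add_sum_filter_not Finset.univ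
      (fun c => c ∈ Finset.univ.image g) f]
    congr 1
    apply Finset.sum_congr _ (fun _ _ => rfl)
    ext c
    simp
  -- the new solution
  set y : Fin n → ℤ := fun c => if h : ∃ i, g i = c then
    x c + ∑ d ∈ R, (x d / D) * w d h.choose else x c % D with hy
  have hyg : ∀ i, y (g i) = x (g i) + ∑ d ∈ R, (x d / D) * w d i := by
    intro i
    have h : ∃ j, g j = g i := ⟨i, rfl⟩
    have h2 : h.choose = i := hinj h.choose_spec
    simp only [hy]
    rw [dif_pos h, h2]
  have hyR : ∀ c ∈ R, y c = x c % D := by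
    intro c hc
    have h : ¬ ∃ i, g i = c := by
      rintro ⟨i, hi⟩
      exact (hmemR c).1 hc i hi
    simp only [hy]
    rw [dif_neg h]
  have hNy : N *ᵥ y = N *ᵥ x := by
    funext r
    show ∑ c, N r c * y c = ∑ c, N r c * x c
    rw [hsplit, hsplit (fun c => N r c * x c)]
    have e1 : ∀ i, N r (g i) * y (g i) =
        N r (g i) * x (g i) + ∑ d ∈ R, (x d / D) * (N r (g i) * w d i) := by
      intro i
      rw [hyg, mul_add, Finset.mul_sum]
      congr 1
      apply Finset.sum_congr rfl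
      intro d _
      ring
    have e2 : ∑ c ∈ R, N r c * y c = ∑ c ∈ R, (N r c * x c - (x c / D) * (D * N r c)) := by
      apply Finset.sum_congr rfl
      intro c hc
      rw [hyR c hc, Int.emod_def]
      ring
    simp only [e1]
    rw [Finset.sum_add_distrib, Finset.sum_comm, e2, Finset.sum_sub_distrib]
    have e3 : ∑ d ∈ R, ∑ i, (x d / D) * (N r (g i) * w d i) =
        ∑ d ∈ R, (x d / D) * (D * N r d) := by
      apply Finset.sum_congr rfl
      intro d _
      rw [← Finset.mul_sum, hwN]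
    rw [e3]
    ring
  refine ⟨y, hNy, ?_⟩
  have hDB : |D| ≤ B := hB g hinj
  have hpow : ((n - K : ℕ) : ℤ) + 1 ≤ 2 ^ (n - K) := by
    exact_mod_cast Nat.lt_two_pow_self
  -- the free coordinates
  have hRb : ∀ c ∈ R, 0 ≤ y c ∧ y c ≤ |D| - 1 := by
    intro c hc
    rw [hyR c hc]
    exact ⟨Int.emod_nonneg _ hD0, by have := Int.emod_lt_abs (x c) hD0; omega⟩
  -- the other coordinates
  have hkey : ∀ i, D * y (g i) = Matrix.cramer (N.submatrix id g) (N *ᵥ x) i -
      ∑ c ∈ R, w c i * y c := by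
    intro i
    have h1 : N *ᵥ x = (N.submatrix id g) *ᵥ (fun i => y (g i)) +
        ∑ c ∈ R, y c • (fun r => N r c) := by
      rw [← hNy]
      funext r
      show ∑ c, N r c * y c = _
      rw [hsplit]
      simp only [Pi.add_apply, Matrix.mulVec, dotProduct, Matrix.submatrix_apply, id,
        Finset.sum_apply, Pi.smul_apply, smul_eq_mul]
      congr 1
      apply Finset.sum_congr rfl
      intro c _
      ring
    have h2 : Matrix.cramer (N.submatrix id g) ((N.submatrix id g) *ᵥ (fun i => y (g i))) =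
        D • (fun i => y (g i)) := by
      rw [Matrix.cramer_eq_adjugate_mulVec, Matrix.mulVec_mulVec, Matrix.adjugate_mul,
        Matrix.smul_mulVec, Matrix.one_mulVec]
    rw [h1, map_add, h2, map_sum]
    simp only [map_smul, Pi.add_apply, Pi.smul_apply, smul_eq_mul, Finset.sum_apply]
    have h3 : ∑ c ∈ R, w c i * y c = ∑ c ∈ R, y c *
        Matrix.cramer (N.submatrix id g) (fun r => N r c) i := by
      apply Finset.sum_congr rfl
      intro c _
      rw [mul_comm]
    rw [h3]
    ring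
  have hB1 : 1 ≤ B := by omega
  have hbig : ∀ i, |y (g i)| ≤ B * 2 ^ (n - K) := by
    intro i
    have h1 : |D| * |y (g i)| ≤ B + (n - K : ℕ) * (|D| * (|D| - 1)) := by
      rw [← abs_mul, hkey]
      refine le_trans (abs_sub _ _) (add_le_add (hB' g hinj i) ?_)
      refine le_trans (Finset.abs_sum_le_sum_abs _ _) ?_
      rw [← hRcard, ← nsmul_eq_mul]
      apply Finset.sum_le_card_nsmul
      intro c hc
      rw [abs_mul]
      obtain ⟨h2, h3⟩ := hRb c hc
      rw [abs_of_nonneg h2]
      exact mul_le_mul (hwb c i) h3 h2 (abs_nonneg _)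
    by_contra hcon
    rw [not_le] at hcon
    have h2 : B * 2 ^ (n - K) + 1 ≤ |y (g i)| := hcon
    set s : ℤ := ((n - K : ℕ) : ℤ) with hs
    have hs0 : 0 ≤ s := by positivity
    set P : ℤ := 2 ^ (n - K) with hP
    have h3 : |D| * (B * P + 1) ≤ B + s * (|D| * (|D| - 1)) :=
      le_trans (mul_le_mul_of_nonneg_left h2 hDpos.le) h1
    have h4 : s * (|D| * (|D| - 1)) ≤ s * (|D| * (B - 1)) := by
      apply mul_le_mul_of_nonneg_left _ hs0
      apply mul_le_mul_of_nonneg_left _ hDpos.le
      omega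
    have h5 : B * (s + 1) ≤ B * P := mul_le_mul_of_nonneg_left hpow (by omega)
    have h6 : |D| * (B * (s + 1) + 1) ≤ |D| * (B * P + 1) :=
      mul_le_mul_of_nonneg_left (by omega) hDpos.le
    have h7 : |D| * (B + 1 + s) ≤ B := by nlinarith
    have h8 : 1 * (B + 1 + s) ≤ |D| * (B + 1 + s) :=
      mul_le_mul_of_nonneg_right (by omega) (by omega)
    omega
  intro c
  by_cases h : ∃ i, g i = c
  · obtain ⟨i, rfl⟩ := h
    exact hbig i
  · have hc : c ∈ R := (hmemR c).2 (fun i hi => h ⟨i, hi⟩)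
    obtain ⟨h2, h3⟩ := hRb c hc
    rw [abs_of_nonneg h2]
    have h4 : B * 1 ≤ B * 2 ^ (n - K) :=
      mul_le_mul_of_nonneg_left (by omega) (by omega)
    omega

/-! ### Restrictions of rows -/

lemma cls_comp {m k : ℕ} {v : Fin m → ℤ} (h : Cls v) (g : Fin k → Fin m)
    (hg : Function.Injective g) : Cls (fun j => v (g j)) := by
  classical
  obtain ⟨a, b, hab⟩ := h
  have key : ∀ a : Option (Fin m), ∃ a' : Option (Fin k), ∀ j, a = some (g j) ↔ a' = some j := by
    intro a
    by_cases h : ∃ j, a = some (g j)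
    · obtain ⟨j, hj⟩ := h
      refine ⟨some j, fun i => ?_⟩
      rw [hj]
      simp only [Option.some.injEq]
      exact hg.eq_iff
    · push Not at h
      exact ⟨none, fun i => by simp [h i]⟩
  obtain ⟨a', ha⟩ := key a
  obtain ⟨b', hb⟩ := key b
  refine ⟨a', b', fun j => ?_⟩
  simp only [hab, ha j, hb j]

lemma cls2_comp {m k : ℕ} {v : Fin m → ℤ} (h : Cls2 v) (g : Fin k → Fin m)
    (hg : Function.Injective g) : Cls2 (fun j => v (g j)) := by
  obtain ⟨a, b, ha, hb, hab⟩ := h
  exact ⟨_, _, cls_comp ha g hg, cls_comp hb g hg, fun x => hab _⟩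

lemma dot_single {n : ℕ} (i : Fin n) (y : Fin n → ℚ) :
    ∑ x, (((Pi.single i 1 : Fin n → ℤ) x : ℤ) : ℚ) * y x = y i := by
  simp [Pi.single_apply]

lemma dot_rowAdd {n : ℕ} (i j k : Fin n) (y : Fin n → ℚ) :
    ∑ x, ((rowAdd i j k x : ℤ) : ℚ) * y x = y i + y j - y k := by
  have : ∀ x, ((rowAdd i j k x : ℤ) : ℚ) * y x = (((Pi.single i 1 : Fin n → ℤ) x : ℤ) : ℚ) * y x +
      (((Pi.single j 1 : Fin n → ℤ) x : ℤ) : ℚ) * y x -
      (((Pi.single k 1 : Fin n → ℤ) x : ℤ) : ℚ) * y x := by
    intro x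
    simp only [rowAdd, Pi.add_apply, Pi.sub_apply]
    push_cast
    ring
  simp only [this, Finset.sum_add_distrib, Finset.sum_sub_distrib, dot_single]

lemma dot_rowSub {n : ℕ} (i j : Fin n) (y : Fin n → ℚ) :
    ∑ x, ((rowSub i j x : ℤ) : ℚ) * y x = y i - y j := by
  have : ∀ x, ((rowSub i j x : ℤ) : ℚ) * y x = (((Pi.single i 1 : Fin n → ℤ) x : ℤ) : ℚ) * y x -
      (((Pi.single j 1 : Fin n → ℤ) x : ℤ) : ℚ) * y x := by
    intro x
    simp only [rowSub, Pi.sub_apply]
    push_cast
    ring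
  simp only [this, Finset.sum_sub_distrib, dot_single]

/-- For every integer tuple `x` there is an integer tuple `y` with `|y_i| ≤ 2^(n-1)` satisfying every
equation `z_i = 1`, `z_k = z_i + z_j` that `x` satisfies. -/
theorem result {n : ℕ} (hn : 1 ≤ n) (x : Fin n → ℤ) :
    ∃ y : Fin n → ℤ, (∀ i, |y i| ≤ 2 ^ (n - 1)) ∧ (∀ i, x i = 1 → y i = 1) ∧
      ∀ i j k, x k = x i + x j → y k = y i + y j := by
  classical
  by_cases hone : ∃ i₀, x i₀ = 1
  swap
  · refine ⟨0, fun i => ?_, fun i hi => absurd ⟨i, hi⟩ hone, fun i j k _ => ?_⟩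
    · simp
    · simp
  obtain ⟨i₀, hi₀⟩ := hone
  let toQ : (Fin n → ℤ) → (Fin n → ℚ) := fun v j => (v j : ℚ)
  set T : Set (Fin n → ℤ) := {v | (∃ i, x i = 1 ∧ v = rowSub i i₀) ∨
    ∃ i j k, x k = x i + x j ∧ v = rowAdd i j k} with hT
  set e₀ : Fin n → ℚ := toQ (Pi.single i₀ 1) with he₀
  set t : Set (Fin n → ℚ) := insert e₀ (toQ '' T) with ht
  have he₀ne : e₀ ≠ 0 := by
    intro h
    have := congrFun h i₀
    simp [he₀, toQ] at this
  have hs : LinearIndepOn ℚ id ({e₀} : Set (Fin n → ℚ)) := LinearIndepOn.singleton he₀ne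
  obtain ⟨b, hbt, hsb, htb, hb⟩ := exists_linearIndepOn_id_extension hs
    (show {e₀} ⊆ t from Set.singleton_subset_iff.2 (Set.mem_insert _ _))
  have hbli : LinearIndependent ℚ (fun z : b => (z : Fin n → ℚ)) := hb
  have : Finite b := hbli.finite
  have : Fintype b := Fintype.ofFinite b
  have hbpos : 0 < Fintype.card b := Fintype.card_pos_iff.2 ⟨⟨e₀, hsb (Set.mem_singleton _)⟩⟩
  obtain ⟨k, hk⟩ : ∃ k, Fintype.card b = k + 1 := ⟨Fintype.card b - 1, by omega⟩
  let σ : Fin (k + 1) ≃ b := (Fintype.equivOfCardEq (by rw [hk, Fintype.card_fin])).symm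
  have hkn : k + 1 ≤ n := by
    have h1 := hbli.fintype_card_le_finrank
    rw [hk, Module.finrank_pi, Fintype.card_fin] at h1
    exact h1
  set r₀ : Fin (k + 1) := σ.symm ⟨e₀, hsb (Set.mem_singleton _)⟩ with hr₀
  have hσr₀ : (σ r₀ : Fin n → ℚ) = e₀ := by rw [hr₀]; simp
  have hrow : ∀ r, ∃ v : Fin n → ℤ, toQ v = (σ r : Fin n → ℚ) ∧
      (r = r₀ → v = Pi.single i₀ 1) ∧ (r ≠ r₀ → v ∈ T) := by
    intro r
    by_cases h : r = r₀
    · exact ⟨Pi.single i₀ 1, by rw [h, hσr₀], fun _ => rfl, fun h' => absurd h h'⟩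
    · have h1 : (σ r : Fin n → ℚ) ∈ t := hbt (σ r).2
      rcases h1 with h1 | ⟨v, hv, hv'⟩
      · exfalso
        apply h
        apply σ.injective
        apply Subtype.ext
        rw [h1, hσr₀]
      · exact ⟨v, hv', fun h' => absurd h' h, fun _ => hv⟩
  choose M hM1 hM0 hM2 using hrow
  set N : Matrix (Fin (k + 1)) (Fin n) ℤ := Matrix.of M with hN
  have hNli : LinearIndependent ℚ (fun r : Fin (k + 1) => fun j => (N r j : ℚ)) := by
    have : (fun r : Fin (k + 1) => fun j => (N r j : ℚ)) =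
        (fun z : b => (z : Fin n → ℚ)) ∘ σ := by
      funext r
      exact hM1 r
    rw [this]
    exact hbli.comp σ σ.injective
  have hMdot : ∀ r, r ≠ r₀ → ∑ j, M r j * x j = 0 := by
    intro r hr
    have h1 : ∑ j, ((M r j : ℤ) : ℚ) * (x j : ℚ) = 0 := by
      rcases hM2 r hr with ⟨i, hi, hv⟩ | ⟨i, j, l, hl, hv⟩
      · rw [hv, dot_rowSub i i₀ (fun j => (x j : ℚ)), hi, hi₀]
        simp
      · rw [hv, dot_rowAdd i j l (fun j => (x j : ℚ)), hl]
        push_cast
        ring
    exact_mod_cast h1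
  have hNx : N *ᵥ x = Pi.single r₀ 1 := by
    funext r
    show ∑ j, M r j * x j = _
    by_cases h : r = r₀
    · subst h
      rw [hM0 _ rfl, Pi.single_eq_same]
      simp [Pi.single_apply, hi₀]
    · rw [hMdot r h, Pi.single_eq_of_ne h]
  have hadj : ∀ g : Fin (k + 1) → Fin n, Function.Injective g → ∀ i,
      |(N.submatrix id g).adjugate i r₀| ≤ 2 ^ k := by
    intro g hg i
    rw [Matrix.adjugate_fin_succ_eq_det_submatrix, abs_mul]
    have h1 : |(-1 : ℤ) ^ ((r₀ : ℕ) + (i : ℕ))| = 1 := by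
      rw [abs_pow, abs_neg, abs_one, one_pow]
    rw [h1, one_mul]
    apply det_cls2
    intro s
    have h3 : Cls2 (M (r₀.succAbove s)) := by
      rcases hM2 _ (Fin.succAbove_ne r₀ s) with ⟨i, _, hi⟩ | ⟨i, j, k, _, hi⟩
      · rw [hi]; exact cls2_rowSub _ _
      · rw [hi]; exact cls2_rowAdd _ _ _
    exact cls2_comp h3 (fun j => g (i.succAbove j))
      (hg.comp Fin.succAbove_right_injective)
  have hBdet : ∀ g : Fin (k + 1) → Fin n, Function.Injective g →
      |(N.submatrix id g).det| ≤ 2 ^ k := by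
    intro g hg
    have h1 : (N.submatrix id g).det =
        ∑ j, (N.submatrix id g) r₀ j * (N.submatrix id g).adjugate j r₀ := by
      have h2 := congrFun (congrFun (Matrix.mul_adjugate (N.submatrix id g)) r₀) r₀
      rw [Matrix.mul_apply] at h2
      rw [h2]
      simp
    have h2 : ∀ j, (N.submatrix id g) r₀ j = if g j = i₀ then 1 else 0 := by
      intro j
      show M r₀ (g j) = _
      rw [hM0 _ rfl, Pi.single_apply]
    by_cases h : ∃ j, g j = i₀
    · obtain ⟨j, hj⟩ := h
      rw [h1, Finset.sum_eq_single j]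
      · rw [h2, if_pos hj, one_mul]
        exact hadj g hg j
      · intro l _ hl
        rw [h2, if_neg (fun h => hl (hg (h.trans hj.symm))), zero_mul]
      · intro h; exact absurd (Finset.mem_univ _) h
    · push Not at h
      rw [h1, Finset.sum_eq_zero]
      · simp
      · intro j _
        rw [h2, if_neg (h j), zero_mul]
  obtain ⟨y, hy1, hy2⟩ := core N hNli (2 ^ k) hBdet x (by
    intro g hg i
    rw [hNx, Matrix.cramer_eq_adjugate_mulVec, Matrix.mulVec_single_one]
    exact hadj g hg i)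
  have hpow : (2 : ℤ) ^ k * 2 ^ (n - (k + 1)) = 2 ^ (n - 1) := by
    rw [← pow_add]
    congr 1
    omega
  -- all rows agree on `x` and `y`
  have hall : ∀ v ∈ t, ∑ j, v j * (y j : ℚ) = ∑ j, v j * (x j : ℚ) := by
    let f : (Fin n → ℚ) →ₗ[ℚ] ℚ :=
      { toFun := fun v => ∑ j, v j * ((y j : ℚ) - (x j : ℚ))
        map_add' := by
          intro u v
          rw [← Finset.sum_add_distrib]
          apply Finset.sum_congr rfl
          intro j _
          simp only [Pi.add_apply]
          ring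
        map_smul' := by
          intro a v
          simp only [Pi.smul_apply, smul_eq_mul, RingHom.id_apply]
          rw [Finset.mul_sum]
          apply Finset.sum_congr rfl
          intro j _
          ring }
    have hfb : ∀ v ∈ b, f v = 0 := by
      intro v hv
      obtain ⟨r, hr⟩ := σ.surjective ⟨v, hv⟩
      have h1 : v = toQ (M r) := by rw [hM1 r, hr]
      have h2 : ∑ j, M r j * y j = ∑ j, M r j * x j := congrFun hy1 r
      have h3 : ∑ j, ((M r j : ℤ) : ℚ) * (y j : ℚ) = ∑ j, ((M r j : ℤ) : ℚ) * (x j : ℚ) := by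
        exact_mod_cast h2
      show ∑ j, v j * ((y j : ℚ) - (x j : ℚ)) = 0
      rw [h1]
      simp only [toQ, mul_sub, Finset.sum_sub_distrib]
      rw [h3, sub_self]
    have hker : Submodule.span ℚ b ≤ LinearMap.ker f := Submodule.span_le.2 hfb
    intro v hv
    have h1 : f v = 0 := hker (htb hv)
    have h2 : ∑ j, v j * ((y j : ℚ) - (x j : ℚ)) = 0 := h1
    simp only [mul_sub, Finset.sum_sub_distrib] at h2
    linarith
  have hy0 : y i₀ = 1 := by
    have h1 := hall e₀ (Set.mem_insert _ _)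
    rw [he₀] at h1
    simp only [toQ] at h1
    rw [dot_single i₀ (fun j => (y j : ℚ)), dot_single i₀ (fun j => (x j : ℚ)), hi₀] at h1
    exact_mod_cast h1
  refine ⟨y, fun i => hpow ▸ hy2 i, ?_, ?_⟩
  · intro i hi
    have h1 := hall (toQ (rowSub i i₀)) (Set.mem_insert_of_mem _ ⟨_, Or.inl ⟨i, hi, rfl⟩, rfl⟩)
    simp only [toQ] at h1
    rw [dot_rowSub i i₀ (fun j => (y j : ℚ)), dot_rowSub i i₀ (fun j => (x j : ℚ)), hi, hi₀,
      hy0] at h1
    have h2 : (y i : ℚ) = 1 := by push_cast at h1; linarith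
    exact_mod_cast h2
  · intro i j l hl
    have h1 := hall (toQ (rowAdd i j l))
      (Set.mem_insert_of_mem _ ⟨_, Or.inr ⟨i, j, l, hl, rfl⟩, rfl⟩)
    simp only [toQ] at h1
    rw [dot_rowAdd i j l (fun j => (y j : ℚ)), dot_rowAdd i j l (fun j => (x j : ℚ)), hl] at h1
    have h2 : (y l : ℚ) = (y i : ℚ) + (y j : ℚ) := by push_cast at h1; linarith
    exact_mod_cast h2

end Pool.Agent.Results.MP_80f852_al.IntegerSolutions
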